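import Pool.Agent.Lib.MP_5db68c_lc.Metrize

/-!
# Countable products of compact Hausdorff quasi-metrizable spaces in ZF

Every model of ZF satisfies: if every countable product of compact metrizable spaces is metrizable,
then every countable product of compact Hausdorff quasi-metrizable spaces is quasi-metrizable.

The heart of the proof is `metrizable_of_quasi`: without any choice, a compact Hausdorff
quasi-metrizable space is metrizable. For a quasi-metric `d` whose topology is compact Hausdorff,
the sets `U_ε = {(x, y) : ∃ z, d z x < ε ∧ d z y < ε}` have intersection of closures equal to the
diagonal, hence form an explicit countable base of the uniformity; a canonical rescaling and the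
chain metric finish the proof.
-/

universe u

namespace Pool.Agent.Results.MP_5db68c_lc.CompactQuasiMetrizableZF

open Pool.Agent.MP_5db68c_lc

theorem result (M : Type u) [Membership M M] (hM : ModelZF M) (h : CPMle M) : CPQle M := by
  haveI : IsZF M := ⟨hM⟩
  exact q1 h

end Pool.Agent.Results.MP_5db68c_lc.CompactQuasiMetrizableZF
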